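import Mathlib
import Pool.Agent.U310.TQ.Stm

/-!
# Package PIG of project TQ: a large spaced subset in a short interval
-/

set_option autoImplicit false

open Filter
open scoped Topology

namespace Pool.Agent.U810.TQ.PIG

open Pool.Agent.U310.TQ

theorem t_PIG : S_PIG := by
  have hlog : Tendsto (fun N : ℕ => Real.log N) atTop atTop :=
    Real.tendsto_log_atTop.comp tendsto_natCast_atTop_atTop
  filter_upwards [hlog.eventually_ge_atTop (10 ^ 5), eventually_ge_atTop 2] with N hN hN2 D hD hcard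
  classical
  set L : ℝ := Real.log N with hL
  have hL0 : (0 : ℝ) < L := by linarith [show (0 : ℝ) < 10 ^ 5 by norm_num]
  have hL1 : (1 : ℝ) ≤ L := by linarith [show (1 : ℝ) ≤ 10 ^ 5 by norm_num]
  have hN2' : (2 : ℝ) ≤ N := by exact_mod_cast hN2
  have hN1 : Real.log ((N : ℝ) + 1) ≤ 2 * L := by
    have h1 : (N : ℝ) + 1 ≤ (N : ℝ) ^ 2 := by nlinarith
    have h2 := Real.log_le_log (by positivity) h1
    rwa [Real.log_pow, Nat.cast_ofNat] at h2
  -- the large elements
  set D' : Finset ℕ := D.filter (fun q : ℕ => L ^ 10 < (q : ℝ)) with hD'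
  have hD'card : L ^ 30 ≤ (D'.card : ℝ) + L ^ 10 := by
    have h1 : D.card = D'.card + (D.filter (fun q : ℕ => ¬ L ^ 10 < (q : ℝ))).card :=
      (Finset.card_filter_add_card_filter_not _).symm
    have h2 : D.filter (fun q : ℕ => ¬ L ^ 10 < (q : ℝ)) ⊆ Finset.Icc 1 ⌊L ^ 10⌋₊ := by
      intro q hq
      rw [Finset.mem_filter, not_lt] at hq
      rw [Finset.mem_Icc]
      exact ⟨(hD q hq.1).1, Nat.le_floor hq.2⟩
    have h3 := Finset.card_le_card h2
    rw [Nat.card_Icc, Nat.add_sub_cancel] at h3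
    have h4 : ((D.filter (fun q : ℕ => ¬ L ^ 10 < (q : ℝ))).card : ℝ) ≤ L ^ 10 :=
      (by exact_mod_cast h3 : ((D.filter (fun q : ℕ => ¬ L ^ 10 < (q : ℝ))).card : ℝ) ≤
        (⌊L ^ 10⌋₊ : ℝ)).trans (Nat.floor_le (by positivity))
    have h5 : (D.card : ℝ) = D'.card + ((D.filter (fun q : ℕ => ¬ L ^ 10 < (q : ℝ))).card : ℝ) := by
      exact_mod_cast h1
    linarith
  -- the classes
  set K : ℕ := ⌊400 * L * Real.log ((N : ℝ) + 1)⌋₊ + 1 with hK
  set T : ℕ := ⌈100 * L ^ 3⌉₊ with hT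
  have hT0 : 0 < T := Nat.ceil_pos.2 (by positivity)
  have hKle : (K : ℝ) ≤ 801 * L ^ 2 := by
    have h1 : (⌊400 * L * Real.log ((N : ℝ) + 1)⌋₊ : ℝ) ≤ 400 * L * Real.log ((N : ℝ) + 1) := by
      refine Nat.floor_le ?_
      have : 0 ≤ Real.log ((N : ℝ) + 1) := Real.log_nonneg (by linarith)
      positivity
    rw [hK]
    push_cast
    nlinarith
  have hTle : (T : ℝ) ≤ 101 * L ^ 3 := by
    have h1 := Nat.ceil_lt_add_one (show 0 ≤ 100 * L ^ 3 by positivity)
    have h2 : 1 ≤ L ^ 3 := one_le_pow₀ hL1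
    linarith
  have hTge : 100 * L ^ 3 ≤ (T : ℝ) := Nat.le_ceil _
  have hmaps : ∀ q ∈ D', ((⌊400 * L * Real.log q⌋₊, q % T) : ℕ × ℕ) ∈
      Finset.range K ×ˢ Finset.range T := by
    intro q hq
    rw [hD', Finset.mem_filter] at hq
    rw [Finset.mem_product, Finset.mem_range, Finset.mem_range]
    refine ⟨?_, Nat.mod_lt _ hT0⟩
    rw [hK, Nat.lt_succ_iff]
    refine Nat.floor_le_floor ?_
    have h1 : (q : ℝ) ≤ (N : ℝ) + 1 := by exact_mod_cast (hD q hq.1).2
    have h2 : (1 : ℝ) ≤ q := by exact_mod_cast (hD q hq.1).1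
    exact mul_le_mul_of_nonneg_left (Real.log_le_log (by linarith) h1) (by positivity)
  have hne : (Finset.range K ×ˢ Finset.range T).Nonempty :=
    ⟨(0, 0), Finset.mem_product.2 ⟨Finset.mem_range.2 (Nat.succ_pos _), Finset.mem_range.2 hT0⟩⟩
  have hbig : (Finset.range K ×ˢ Finset.range T).card • L ^ 8 ≤ (D'.card : ℝ) := by
    rw [Finset.card_product, Finset.card_range, Finset.card_range, nsmul_eq_mul]
    push_cast
    have h1 : (K : ℝ) * T ≤ (801 * L ^ 2) * (101 * L ^ 3) :=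
      mul_le_mul hKle hTle (by positivity) (by positivity)
    have h2 : (K : ℝ) * T * L ^ 8 ≤ 80901 * L ^ 13 := by
      calc (K : ℝ) * T * L ^ 8 ≤ (801 * L ^ 2) * (101 * L ^ 3) * L ^ 8 :=
            mul_le_mul_of_nonneg_right h1 (by positivity)
        _ = 80901 * L ^ 13 := by ring
    have h3 : 80901 * L ^ 13 ≤ L ^ 14 := by
      have h4 : 80901 ≤ L := by linarith [show (80901 : ℝ) ≤ 10 ^ 5 by norm_num]
      calc 80901 * L ^ 13 ≤ L * L ^ 13 := mul_le_mul_of_nonneg_right h4 (by positivity)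
        _ = L ^ 14 := by ring
    have h4 : L ^ 14 ≤ L ^ 29 := pow_le_pow_right₀ hL1 (by norm_num)
    have h5 : L ^ 10 ≤ L ^ 29 := pow_le_pow_right₀ hL1 (by norm_num)
    have h6 : 2 * L ^ 29 ≤ L ^ 30 := by
      have h7 : (2 : ℝ) ≤ L := by linarith [show (2 : ℝ) ≤ 10 ^ 5 by norm_num]
      calc 2 * L ^ 29 ≤ L * L ^ 29 := mul_le_mul_of_nonneg_right h7 (by positivity)
        _ = L ^ 30 := by ring
    linarith
  obtain ⟨y, -, hy⟩ := Finset.exists_le_card_fiber_of_nsmul_le_card_of_maps_to hmaps hne hbig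
  set B : Finset ℕ := D'.filter (fun q : ℕ => ((⌊400 * L * Real.log q⌋₊, q % T) : ℕ × ℕ) = y) with hB
  have hBmem : ∀ q ∈ B, q ∈ D ∧ L ^ 10 < (q : ℝ) ∧ ⌊400 * L * Real.log q⌋₊ = y.1 ∧ q % T = y.2 := by
    intro q hq
    rw [hB, Finset.mem_filter, hD', Finset.mem_filter] at hq
    exact ⟨hq.1.1, hq.1.2, congrArg Prod.fst hq.2, congrArg Prod.snd hq.2⟩
  have hBne : B.Nonempty := by
    rw [← Finset.card_pos]
    have h1 : (0 : ℝ) < B.card := lt_of_lt_of_le (by positivity) hy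
    exact_mod_cast h1
  obtain ⟨q0, hq0, hmin⟩ := Finset.exists_min_image B id hBne
  obtain ⟨h01, h02, h03, h04⟩ := hBmem q0 hq0
  have hq01 : 1 ≤ q0 := (hD q0 h01).1
  obtain ⟨X, rfl⟩ : ∃ X, q0 = X + 1 := ⟨q0 - 1, by omega⟩
  have hXbig : 400 * L ≤ (X : ℝ) := by
    push_cast at h02
    have h1 : L * (10 ^ 5) ≤ L ^ 10 := by
      calc L * (10 ^ 5) ≤ L * L := mul_le_mul_of_nonneg_left hN hL0.le
        _ = L ^ 2 := by ring
        _ ≤ L ^ 10 := pow_le_pow_right₀ hL1 (by norm_num)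
    have h2 : (10 : ℝ) ^ 5 = 100000 := by norm_num
    rw [h2] at h1
    linarith
  have hXN : X + 1 ≤ N + 1 := (hD _ h01).2
  refine ⟨X, B, ?_, by linarith, by omega, ?_, ?_, hy⟩
  · intro q hq
    exact (Finset.mem_filter.1 (Finset.mem_filter.1 hq).1).1
  · intro q hq
    obtain ⟨h1, h2, h3, h4⟩ := hBmem q hq
    have hle : X + 1 ≤ q := hmin q hq
    refine ⟨by omega, ?_⟩
    have hqpos : (0 : ℝ) < q := by
      have : (1 : ℝ) ≤ q := by exact_mod_cast (hD q h1).1
      linarith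
    have hX0 : (0 : ℝ) < (X : ℝ) + 1 := by positivity
    -- the logarithms are close
    have h5 : 400 * L * Real.log q < 400 * L * Real.log ((X : ℝ) + 1) + 1 := by
      have h6 := Nat.lt_floor_add_one (400 * L * Real.log q)
      rw [h3] at h6
      have h7 : (⌊400 * L * Real.log ((X + 1 : ℕ) : ℝ)⌋₊ : ℝ) ≤
          400 * L * Real.log ((X + 1 : ℕ) : ℝ) := by
        refine Nat.floor_le ?_
        have : 0 ≤ Real.log ((X + 1 : ℕ) : ℝ) := Real.log_natCast_nonneg _
        positivity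
      rw [h03] at h7
      push_cast at h7
      linarith
    have h6 : 1 - ((q : ℝ) / (X + 1))⁻¹ ≤ Real.log ((q : ℝ) / (X + 1)) :=
      Real.one_sub_inv_le_log_of_pos (by positivity)
    rw [Real.log_div hqpos.ne' hX0.ne', inv_div] at h6
    have h7 : 400 * L * (1 - ((X : ℝ) + 1) / q) < 1 := by
      have h8 := mul_le_mul_of_nonneg_left h6 (show 0 ≤ 400 * L by positivity)
      linarith
    have h8 : 400 * L * ((q : ℝ) - (X + 1)) < q := by
      have h9 := mul_lt_mul_of_pos_right h7 hqpos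
      have h10 : 400 * L * (1 - ((X : ℝ) + 1) / q) * q = 400 * L * ((q : ℝ) - (X + 1)) := by
        field_simp
      rw [h10, one_mul] at h9
      exact h9
    have hle' : (X : ℝ) + 1 ≤ q := by exact_mod_cast hle
    have h9 : (q : ℝ) ≤ 2 * (X + 1) := by
      by_contra hcon
      push Not at hcon
      nlinarith
    have h10 : 400 * L * ((q : ℝ) - (X + 1)) < 2 * (X + 1) := lt_of_lt_of_le h8 h9
    -- conclusion
    have hXL : Real.log X ≤ L := by
      refine Real.log_le_log (by linarith) ?_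
      exact_mod_cast (by omega : X ≤ N)
    have hlX : 0 < Real.log X := Real.log_pos (by linarith)
    have h11 : (X : ℝ) / (100 * L) ≤ X / (100 * Real.log X) :=
      div_le_div_of_nonneg_left (by positivity) (by positivity) (by linarith)
    have h12 : (q : ℝ) ≤ X + X / (100 * L) := by
      have h13 : (q : ℝ) - (X + 1) < 2 * (X + 1) / (400 * L) := by
        rw [lt_div_iff₀ (by positivity)]
        linarith
      have h14 : 1 + 2 * ((X : ℝ) + 1) / (400 * L) ≤ X / (100 * L) := by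
        rw [← sub_nonneg]
        have h15 : (X : ℝ) / (100 * L) - (1 + 2 * ((X : ℝ) + 1) / (400 * L)) =
            (2 * X - 2 - 400 * L) / (400 * L) := by
          field_simp
          ring
        rw [h15]
        refine div_nonneg ?_ (by positivity)
        linarith
      linarith
    linarith
  · intro q hq q' hq' hlt
    obtain ⟨-, -, -, h4⟩ := hBmem q hq
    obtain ⟨-, -, -, h4'⟩ := hBmem q' hq'
    have h5 : q ≡ q' [MOD T] := h4.trans h4'.symm
    have h6 : T ∣ q' - q := (Nat.modEq_iff_dvd' hlt.le).1 h5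
    have h7 : T ≤ q' - q := Nat.le_of_dvd (by omega) h6
    have h8 : q + T ≤ q' := by omega
    have h9 : (q : ℝ) + T ≤ q' := by exact_mod_cast h8
    linarith

end Pool.Agent.U810.TQ.PIG
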